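import Mathlib

namespace Pool.Agent.Results.MP_26ecb3_co.Counter

/-- `A` is `s`-spanning: every element is a signed sum of at most `s` terms from `A`. -/
def Spanning {G : Type} [AddCommGroup G] (s : ℕ) (A : Finset G) : Prop :=
  ∀ g : G, ∃ c : G → ℤ, ∑ a ∈ A, (c a).natAbs ≤ s ∧ ∑ a ∈ A, c a • a = g

/-- Least size of an `s`-spanning set. -/
noncomputable def phi (G : Type) [AddCommGroup G] (s : ℕ) : ℕ :=
  sInf {m | ∃ A : Finset G, Spanning s A ∧ A.card = m}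

/-- The conjectured list `L`. -/
def InL (s k : ℕ) : Prop :=
  (s = 2 ∧ k ∈ ({1, 2} : Set ℕ)) ∨ (s = 3 ∧ k ∈ ({1, 2, 3, 4} : Set ℕ)) ∨
  (s = 4 ∧ k ∈ ({1, 2, 3, 4, 5, 6, 8} : Set ℕ)) ∨ (5 ≤ s ∧ k + 4 ≤ 3 * s)

abbrev G24 := ZMod 2 × ZMod 24

theorem cover : ∀ g : G24, ∃ x ∈ ([-5, -4, -3, -2, -1, 0, 1, 2, 3, 4, 5] : List ℤ),
    ∃ y ∈ ([-5, -4, -3, -2, -1, 0, 1, 2, 3, 4, 5] : List ℤ),
    x.natAbs + y.natAbs ≤ 5 ∧ (((x : ZMod 2), (x : ZMod 24) * 2 + (y : ZMod 24) * 3) : G24) = g := by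
  decide +kernel

theorem span2 : Spanning 5 ({(1, 2), (0, 3)} : Finset G24) := by
  intro g
  obtain ⟨x, -, y, -, h1, h2⟩ := cover g
  have hne : ((1, 2) : G24) ≠ (0, 3) := by decide
  refine ⟨fun a => if a = (1, 2) then x else y, ?_, ?_⟩
  · rw [Finset.sum_pair hne]; simpa [hne.symm] using h1
  · rw [Finset.sum_pair hne, ← h2]
    simp [hne.symm]

theorem small : ∀ a : G24, ∃ g : G24,
    ∀ x ∈ ([-5, -4, -3, -2, -1, 0, 1, 2, 3, 4, 5] : List ℤ),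
      (((x : ZMod 2) * a.1, (x : ZMod 24) * a.2) : G24) ≠ g := by
  decide +kernel

theorem two_le (A : Finset G24) (hA : Spanning 5 A) : 2 ≤ A.card := by
  by_contra h
  have h1 : A.card ≤ 1 := by omega
  rcases Finset.card_le_one_iff_subset_singleton.mp h1 with ⟨a, ha⟩
  rcases Finset.subset_singleton_iff.mp ha with rfl | rfl
  · obtain ⟨c, -, hc⟩ := hA (1, 0)
    simp only [Finset.sum_empty] at hc
    exact absurd hc (by decide)
  · obtain ⟨g, hg⟩ := small a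
    obtain ⟨c, hc1, hc2⟩ := hA g
    simp only [Finset.sum_singleton] at hc1 hc2
    refine hg (c a) ?_ ?_
    · simp only [List.mem_cons, List.not_mem_nil]; omega
    · rw [← hc2]; ext <;> simp

theorem result : ∃ s k : ℕ, 0 < s ∧ 0 < k ∧ ¬ InL s k ∧ phi (ZMod 2 × ZMod (2 * k)) s = 2 := by
  refine ⟨5, 12, by norm_num, by norm_num, by simp [InL], ?_⟩
  change sInf {m | ∃ A : Finset G24, Spanning 5 A ∧ A.card = m} = 2
  have hmem : 2 ∈ {m | ∃ A : Finset G24, Spanning 5 A ∧ A.card = m} :=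
    ⟨_, span2, by decide⟩
  apply le_antisymm (Nat.sInf_le hmem)
  obtain ⟨A, hA, hc⟩ := Nat.sInf_mem ⟨2, hmem⟩
  rw [← hc]
  exact two_le A hA

end Pool.Agent.Results.MP_26ecb3_co.Counter
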